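import Pool.Agent.SqSig.Fin

set_option autoImplicit false

namespace Pool.Agent.Results.MP_cb7313_nt.PositiveProportion

/-- There is `c > 0` such that for all large `N` at least `c N` of the integers `n ≤ N` have at
least `c √N / (log N) ^ 2` integers `k` with `0 < k < n` for which `σ(k) + φ(n - k)` is a perfect
square. In particular the set of `n` for which such a `k` exists has positive lower density. -/
theorem result : ∃ c : ℝ, 0 < c ∧ ∃ N₀ : ℕ, ∀ N : ℕ, N₀ ≤ N →
    c * N ≤ (((Finset.Icc 1 N).filter (fun n : ℕ =>
      c * Real.sqrt N / Real.log N ^ 2 ≤ (((Finset.Ioo 0 n).filter (fun k : ℕ =>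
        IsSquare (ArithmeticFunction.sigma 1 k + Nat.totient (n - k)))).card : ℝ))).card : ℝ) :=
  Pool.Agent.SqSig.main

end Pool.Agent.Results.MP_cb7313_nt.PositiveProportion
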